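import Pool.Agent.H548R2.SamplingMain

/-!
Decomposable real arithmetic circuits overlap the set of models of suitable CNFs only in an
exponentially small part of their mass.
-/

namespace Pool.Agent.Results.MP_4ed1f9_lc.Sampling

open Pool.Agent.H548R2 Finset

theorem result (D : ℕ) (hD : 2 ≤ D) : ∃ C : ℕ, ∀ n : ℕ, 1 ≤ n →
    ∃ (V : Type) (_ : Fintype V) (_ : DecidableEq V) (φ : CNF V),
      Fintype.card V ≤ C * n ∧ φ.length ≤ C * n ∧ (∀ K ∈ φ, K.length ≤ C) ∧
      (∀ v, Occurs v φ) ∧ 0 < modelCount φ ∧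
      ∀ (d : ℕ) (J : Type) (_ : Fintype J) (A : J → ACircuit V) (M : ℝ), 0 ≤ M →
        (∀ j, (A j).Valid d D) →
        ∑ a, indicator φ a * min M (∑ j, |(A j).val (A j).out a|)
          ≤ (1 / 2) ^ n * ∑ j, (A j).size *
            (M * modelCount φ + ∑ a, (A j).absVal (A j).out a) :=
  sampling_main D hD

end Pool.Agent.Results.MP_4ed1f9_lc.Sampling
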